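import Mathlib
import Pool.Agent.TH905.HS.Glob

set_option autoImplicit false

/-!
# Hyperelliptic curves with rational Weierstrass points by their bad primes: statements
-/

namespace Pool.Agent.TH876.HC

open NumberField Height Finset LinearAlgebra.Projectivization Polynomial
open Pool.Agent.W318 (discNorm badNorm)
open Pool.Agent.TH905.HS (root pol)

/-- the absolute logarithmic height of a point of projective space -/
noncomputable def height {K : Type} [Field K] [NumberField K] {n : ℕ}
    (P : ℙ K (Fin (n + 1) → K)) : ℝ := Real.log P.mulHeight / Module.finrank ℚ K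

/-- the configurations of height at most `H` with different roots such that `M_C ≤ X` for some
quadratic twist -/
def Configs (K : Type) [Field K] [NumberField K] (g n : ℕ) (X H : ℝ) :
    Set (ℙ K (Fin (n + 1) → K)) :=
  {P | Function.Injective (root P.rep) ∧ height P ≤ H ∧
    ∃ d : K, d ≠ 0 ∧ (badNorm g (pol d (root P.rep)) : ℝ) ≤ X}

/-- the configurations of height at most `log B` with different roots for which the inequality
`Δ_C ≤ c M_C ^ κ` fails for some quadratic twist -/
def Exceptional (K : Type) [Field K] [NumberField K] (g n : ℕ) (κ c B : ℝ) :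
    Set (ℙ K (Fin (n + 1) → K)) :=
  {P | Function.Injective (root P.rep) ∧ height P ≤ Real.log B ∧
    ∃ d : K, d ≠ 0 ∧ c * (badNorm g (pol d (root P.rep)) : ℝ) ^ κ <
      discNorm g (pol d (root P.rep))}

/-- the count by bad primes -/
def CountS : Prop := ∀ (K : Type) [Field K] [NumberField K] (g n : ℕ), 2 ≤ g → n + 1 = 2 * g →
  ∀ ε : ℝ, 0 < ε → ∃ C : ℝ, 0 ≤ C ∧ ∀ X H : ℝ, 1 ≤ X → 1 ≤ H → (Configs K g n X H).Finite ∧
    ((Configs K g n X H).ncard : ℝ) ≤ C * H * X ^ (7 / 10 + ε)

/-- the count of the exceptional configurations -/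
def ExcS : Prop := ∀ (K : Type) [Field K] [NumberField K] (g n : ℕ), 2 ≤ g → n + 1 = 2 * g →
  ∀ κ c δ : ℝ, 4 * g + 2 < κ → 0 < c → 0 < δ → ∃ M : ℝ, ∀ B : ℝ, 1 ≤ B →
    (Exceptional K g n κ c B).Finite ∧ ((Exceptional K g n κ c B).ncard : ℝ) ≤
      M * B ^ (Module.finrank ℚ K * (7 * g * (2 * g + 1) / (5 * (κ - 4 * g - 2))) + δ)

end Pool.Agent.TH876.HC
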