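import Mathlib
import Pool.Agent.TH876.HC.Def
import Pool.Agent.TH876.MN.Main

set_option autoImplicit false

namespace Pool.Agent.TH876.HC

open NumberField Height Finset LinearAlgebra.Projectivization Polynomial
open Pool.Agent.W318 (discNorm badNorm)
open Pool.Agent.TH905.HS (root pol)

section

open IsDedekindDomain Pool.Agent.H691R3 WithZero
open Pool.Agent.W318 (minExp finite_bad badNorm_eq)
open Pool.Agent.TH905.HS (fv_of_exp hyp bad_of_ne finite_two rep_ne)

variable {K : Type} [Field K] [NumberField K]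

omit [NumberField K] in
private lemma Count_root_succ {n : ℕ} (x : Fin (n + 1) → K) (l : Fin (n + 1)) :
    root x l.succ = x l := by simp [root]

omit [NumberField K] in
private lemma Count_root_zero {n : ℕ} (x : Fin (n + 1) → K) : root x 0 = 0 := by simp [root]

/-- a unit for the absolute value is a unit for the valuation -/
private lemma Count_val {v : HeightOneSpectrum (𝓞 K)} {z : K} (hz : z ≠ 0) (h : fv v z = 1) :
    v.valuation K z = 1 := by
  obtain ⟨k, hk⟩ := Pool.Agent.W318.exists_exp v hz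
  rw [fv_of_exp v hk] at h
  have hN : 1 < Nv v := by linarith [two_le_Nv v]
  have h0 : k = 0 := by
    have h1 : Nv v ^ k = Nv v ^ (0 : ℤ) := by rw [h, zpow_zero]
    exact (zpow_right_inj₀ (by linarith) hN.ne').1 h1
  rw [hk, h0, exp_zero]

private lemma Count_mulHeight_rep {n : ℕ} (P : ℙ K (Fin (n + 1) → K)) :
    P.mulHeight = mulHeight P.rep := by
  conv_lhs => rw [← P.mk_rep]
  rw [Projectivization.mulHeight_mk]

/-- the coordinates of a configuration -/
private noncomputable def Count_phi {n : ℕ} (P : ℙ K (Fin (n + 1) → K)) : Fin n → K :=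
  fun i => P.rep i.succ / P.rep 0

omit [NumberField K] in
private lemma Count_inj {n : ℕ} {P Q : ℙ K (Fin (n + 1) → K)} (hP : P.rep 0 ≠ 0)
    (hQ : Q.rep 0 ≠ 0) (h : Count_phi P = Count_phi Q) : P = Q := by
  rw [← P.mk_rep, ← Q.mk_rep, Projectivization.mk_eq_mk_iff']
  refine ⟨P.rep 0 / Q.rep 0, ?_⟩
  funext l
  rw [Pi.smul_apply, smul_eq_mul]
  refine Fin.cases ?_ (fun i => ?_) l
  · field_simp
  · have h1 := congrFun h i
    unfold Count_phi at h1
    rw [div_eq_div_iff hP hQ] at h1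
    field_simp
    linear_combination -h1

private lemma Count_one_le_prod {α : Type*} (A : Finset α) (f : α → ℝ) (h : ∀ v, 1 ≤ f v) :
    1 ≤ ∏ v ∈ A, f v :=
  Finset.prod_induction f (fun t => 1 ≤ t) (fun _ _ => one_le_mul_of_one_le_of_one_le) le_rfl
    fun v _ => h v

/-- the product of the norms over a set of bad primes -/
private lemma Count_prod {A B : Finset (HeightOneSpectrum (𝓞 K))} [DecidableEq (HeightOneSpectrum (𝓞 K))] :
    (∏ v ∈ A ∪ B, (Ideal.absNorm v.asIdeal : ℝ)) ≤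
      (∏ v ∈ A, (Ideal.absNorm v.asIdeal : ℝ)) * ∏ v ∈ B, (Ideal.absNorm v.asIdeal : ℝ) := by
  have h1 : ∀ v : HeightOneSpectrum (𝓞 K), (1 : ℝ) ≤ (Ideal.absNorm v.asIdeal : ℝ) := fun v => by
    have : (2 : ℝ) ≤ Nv v := two_le_Nv v
    unfold Nv at this
    linarith
  rw [← Finset.prod_union_inter]
  have h2 : (1 : ℝ) ≤ ∏ v ∈ A ∩ B, (Ideal.absNorm v.asIdeal : ℝ) :=
    Count_one_le_prod _ _ h1
  have h3 : (0 : ℝ) ≤ ∏ v ∈ A ∪ B, (Ideal.absNorm v.asIdeal : ℝ) :=
    Finset.prod_nonneg fun v _ => (zero_le_one.trans (h1 v))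
  nlinarith

private lemma Count_sec {g n : ℕ} (hg : 2 ≤ g) (hn : n + 1 = 2 * g) {X H : ℝ}
    {P : ℙ K (Fin (n + 1) → K)} (hP : P ∈ Configs K g n X H) :
    Count_phi P ∈ {x : Fin n → K | (∀ i, x i ≠ 0 ∧ x i ≠ 1) ∧ (∀ i j, i ≠ j → x i ≠ x j) ∧
        (∃ b : Finset (HeightOneSpectrum (𝓞 K)),
          (∏ v ∈ b, (Ideal.absNorm v.asIdeal : ℝ)) ≤
            (∏ v ∈ (finite_two K).toFinset, (Ideal.absNorm v.asIdeal : ℝ)) * X ∧ ∀ v, v ∉ b →
            (∀ i, v.valuation K (x i) = 1 ∧ v.valuation K (1 - x i) = 1) ∧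
            ∀ i j, i ≠ j → v.valuation K (x i - x j) = 1) ∧
        ∀ i, Height.logHeight₁ (x i) ≤ Module.finrank ℚ K * H} := by
  classical
  obtain ⟨hx, hH, d, hd, hbad⟩ := hP
  set r := P.rep with hr
  have h0 : r 0 ≠ 0 := rep_ne hx 0
  have e0 : root r 0 = 0 := Count_root_zero r
  have e1 : root r (0 : Fin (n + 1)).succ = r 0 := Count_root_succ r 0
  have e2 : ∀ i : Fin n, root r i.succ.succ = r i.succ := fun i => Count_root_succ r i.succ
  have hi0 : ∀ i : Fin n, (i.succ.succ : Fin (n + 2)) ≠ 0 := fun i => Fin.succ_ne_zero _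
  have hi1 : ∀ i : Fin n, (i.succ.succ : Fin (n + 2)) ≠ (0 : Fin (n + 1)).succ := fun i h =>
    Fin.succ_ne_zero i (Fin.succ_injective _ h)
  have h10 : ((0 : Fin (n + 1)).succ : Fin (n + 2)) ≠ 0 := Fin.succ_ne_zero _
  have hij : ∀ i j : Fin n, i ≠ j → (i.succ.succ : Fin (n + 2)) ≠ j.succ.succ := fun i j h h' =>
    h (Fin.succ_injective _ (Fin.succ_injective _ h'))
  have hne : ∀ i : Fin n, r i.succ ≠ 0 := fun i => rep_ne hx i.succ
  have hne1 : ∀ i : Fin n, r i.succ ≠ r 0 := fun i h => by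
    have := hx.ne (hi1 i)
    rw [e1, e2] at this
    exact this h
  have hne2 : ∀ i j : Fin n, i ≠ j → r i.succ ≠ r j.succ := fun i j h h' => by
    have := hx.ne (hij i j h)
    rw [e2, e2] at this
    exact this h'
  refine ⟨fun i => ⟨div_ne_zero (hne i) h0, fun h => hne1 i ((div_eq_one_iff_eq h0).1 h)⟩,
    fun i j h h' => hne2 i j h ((div_left_inj' h0).1 h'), ?_, fun i => ?_⟩
  · refine ⟨(finite_two K).toFinset ∪ (finite_bad (hyp hn hd hx)).toFinset, ?_, fun v hv => ?_⟩
    · refine Count_prod.trans ?_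
      refine mul_le_mul_of_nonneg_left ?_ (Finset.prod_nonneg fun v _ => Nat.cast_nonneg _)
      refine le_trans (le_of_eq ?_) hbad
      rw [badNorm_eq (finite_bad (hyp hn hd hx)).toFinset fun v => by simp, Nat.cast_prod]
    · rw [mem_union, not_or, Set.Finite.mem_toFinset, Set.Finite.mem_toFinset] at hv
      obtain ⟨hv1, hv2⟩ := hv
      have hv1' : v.valuation K (2 : K) = 1 := by
        by_contra h
        exact hv1 h
      have hv2' : minExp g (pol d (root r)) v = 0 := by
        by_contra h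
        exact hv2 h
      have key : ∀ i j i' j' : Fin (n + 2), i ≠ j → i' ≠ j' →
          fv v (root r i - root r j) = fv v (root r i' - root r j') := by
        intro i j i' j' h h'
        by_contra hcon
        exact bad_of_ne hn hg hd hx v hv1' h h' hcon hv2'
      have hpos : fv v (r 0) ≠ 0 := ((fv v).pos h0).ne'
      have k0 : fv v (root r (0 : Fin (n + 1)).succ - root r 0) = fv v (r 0) := by
        rw [e1, e0, sub_zero]
      refine ⟨fun i => ⟨?_, ?_⟩, fun i j h => ?_⟩
      · refine Count_val (div_ne_zero (hne i) h0) ?_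
        have k1 := key i.succ.succ 0 (0 : Fin (n + 1)).succ 0 (hi0 i) h10
        rw [k0, e2, e0, sub_zero] at k1
        change fv v (r i.succ / r 0) = 1
        rw [map_div₀, k1, div_self hpos]
      · have e : 1 - r i.succ / r 0 = (r 0 - r i.succ) / r 0 := by
          rw [sub_div, div_self h0]
        change v.valuation K (1 - r i.succ / r 0) = 1
        rw [e]
        refine Count_val (div_ne_zero (sub_ne_zero.2 (hne1 i).symm) h0) ?_
        have k1 := key (0 : Fin (n + 1)).succ i.succ.succ (0 : Fin (n + 1)).succ 0 (hi1 i).symm h10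
        rw [k0, e2, e1] at k1
        rw [map_div₀, k1, div_self hpos]
      · change v.valuation K (r i.succ / r 0 - r j.succ / r 0) = 1
        rw [← sub_div]
        refine Count_val (div_ne_zero (sub_ne_zero.2 (hne2 i j h)) h0) ?_
        have k1 := key i.succ.succ j.succ.succ (0 : Fin (n + 1)).succ 0 (hij i j h) h10
        rw [k0, e2, e2] at k1
        rw [map_div₀, k1, div_self hpos]
  · change Height.logHeight₁ (r i.succ / r 0) ≤ _
    rw [logHeight₁_div_eq_logHeight]
    have h1 : logHeight ![r i.succ, r 0] ≤ logHeight r := by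
      have h2 := logHeight_comp_le (f := ![i.succ, 0]) (x := r)
      have h3 : r ∘ ![i.succ, 0] = ![r i.succ, r 0] := by
        funext l
        fin_cases l <;> rfl
      rwa [h3] at h2
    refine h1.trans ?_
    have hfr : (0 : ℝ) < Module.finrank ℚ K := by exact_mod_cast Module.finrank_pos
    have h4 : logHeight r = Module.finrank ℚ K * height P := by
      unfold height
      rw [Count_mulHeight_rep, mul_div_cancel₀ _ hfr.ne', logHeight_eq_log_mulHeight]
    rw [h4]
    exact mul_le_mul_of_nonneg_left hH hfr.le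

end

theorem count : CountS := by
  intro K _ _ g n hg hn ε hε
  have hm : 2 ≤ n := by omega
  obtain ⟨C, hC⟩ := Pool.Agent.TH876.MN.finM K n (Pool.Agent.TH876.MN.count_many K n hm) ε hε
  set c0 : ℝ := ∏ v ∈ (Pool.Agent.TH905.HS.finite_two K).toFinset,
    (Ideal.absNorm v.asIdeal : ℝ) with hc0
  have h1 : ∀ v : IsDedekindDomain.HeightOneSpectrum (𝓞 K),
      (1 : ℝ) ≤ (Ideal.absNorm v.asIdeal : ℝ) := fun v => by
    have : (2 : ℝ) ≤ Pool.Agent.H691R3.Nv v := Pool.Agent.H691R3.two_le_Nv v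
    unfold Pool.Agent.H691R3.Nv at this
    linarith
  have hc1 : 1 ≤ c0 := Count_one_le_prod _ _ h1
  have hfr : (1 : ℝ) ≤ Module.finrank ℚ K := by exact_mod_cast Module.finrank_pos
  refine ⟨|C| * Module.finrank ℚ K * c0 ^ (7 / 10 + ε), by positivity, fun X H hX hH => ?_⟩
  have hX' : 1 ≤ c0 * X := by nlinarith
  have hH' : 1 ≤ Module.finrank ℚ K * H := by nlinarith
  obtain ⟨hfin, hcard⟩ := hC (c0 * X) (Module.finrank ℚ K * H) hX' hH'
  have hmaps : ∀ P ∈ Configs K g n X H, Count_phi P ∈ _ := fun P hP => Count_sec hg hn hP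
  have hinj : Set.InjOn (Count_phi (K := K) (n := n)) (Configs K g n X H) := by
    intro P hP Q hQ h
    exact Count_inj (Pool.Agent.TH905.HS.rep_ne hP.1 0) (Pool.Agent.TH905.HS.rep_ne hQ.1 0) h
  refine ⟨Set.Finite.of_injOn hmaps hinj hfin, ?_⟩
  have hle := Set.ncard_le_ncard_of_injOn Count_phi hmaps hinj hfin
  have hle' : ((Configs K g n X H).ncard : ℝ) ≤ C * (Module.finrank ℚ K * H) *
      (c0 * X) ^ (7 / 10 + ε) := le_trans (Nat.cast_le.2 hle) hcard
  refine hle'.trans ?_
  rw [Real.mul_rpow (by linarith) (by linarith)]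
  have hp : 0 ≤ (Module.finrank ℚ K * H) * (c0 ^ (7 / 10 + ε) * X ^ (7 / 10 + ε)) := by
    positivity
  calc C * (Module.finrank ℚ K * H) * (c0 ^ (7 / 10 + ε) * X ^ (7 / 10 + ε))
      = C * ((Module.finrank ℚ K * H) * (c0 ^ (7 / 10 + ε) * X ^ (7 / 10 + ε))) := by ring
    _ ≤ |C| * ((Module.finrank ℚ K * H) * (c0 ^ (7 / 10 + ε) * X ^ (7 / 10 + ε))) :=
        mul_le_mul_of_nonneg_right (le_abs_self C) hp
    _ = |C| * Module.finrank ℚ K * c0 ^ (7 / 10 + ε) * H * X ^ (7 / 10 + ε) := by ring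

end Pool.Agent.TH876.HC
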