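import Mathlib
import Pool.Agent.TH876.HC.Def
import Pool.Agent.TH905.HS.Fin1

set_option autoImplicit false

/-!
# Hyperelliptic curves with rational Weierstrass points: the exceptional configurations
-/

namespace Pool.Agent.TH876.HC

open NumberField Height Finset LinearAlgebra.Projectivization Polynomial
open Pool.Agent.W318 (discNorm badNorm)
open Pool.Agent.TH905.HS (root pol)

/-- the bad primes of an exceptional configuration -/
theorem Exc_sub (K : Type) [Field K] [NumberField K] (g n : ℕ) (hg : 2 ≤ g) (hn : n + 1 = 2 * g)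
    (κ c : ℝ) (hκ : 4 * g + 2 < κ) (hc : 0 < c) :
    ∃ c₂ : ℝ, 0 ≤ c₂ ∧ ∀ B : ℝ, 1 ≤ B → Exceptional K g n κ c B ⊆
      Configs K g n (Real.exp c₂ * B ^ (2 * g * (2 * g + 1) * Module.finrank ℚ K /
        (κ - 4 * g - 2))) (max 1 (Real.log B)) := by
  obtain ⟨c₁, hc₁⟩ := Pool.Agent.TH905.HS.log_disc_le K hn hg
  set s : ℝ := κ - 4 * g - 2 with hs
  have hs0 : 0 < s := by rw [hs]; linarith
  refine ⟨max 0 ((c₁ - Real.log c) / s), le_max_left _ _, fun B hB P hP => ?_⟩
  obtain ⟨hx, hH, d, hd, hviol⟩ := hP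
  refine ⟨hx, hH.trans (le_max_right _ _), d, hd, ?_⟩
  have hpos := Pool.Agent.TH905.HS.badNorm_pos hn hd hx
  have h1 := Pool.Agent.TH905.HS.viol_log hc hpos hviol
  have h2 := hc₁ P.rep hx d hd
  have hfin : (0 : ℝ) < Module.finrank ℚ K := by exact_mod_cast Module.finrank_pos
  have hHt : logHeight P.rep ≤ Module.finrank ℚ K * Real.log B := by
    rw [logHeight_eq_log_mulHeight, ← Pool.Agent.TH905.HS.mulHeight_rep]
    unfold height at hH
    rw [div_le_iff₀ hfin] at hH
    linarith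
  have hn' : (n : ℝ) + 1 = 2 * g := by exact_mod_cast hn
  have hnn : (n : ℝ) = 2 * g - 1 := by linarith
  set L := Real.log (badNorm g (pol d (root P.rep))) with hL
  have h3 : ((n : ℝ) + 2) * (n + 1) * logHeight P.rep ≤
      ((n : ℝ) + 2) * (n + 1) * (Module.finrank ℚ K * Real.log B) :=
    mul_le_mul_of_nonneg_left hHt (by positivity)
  have h4 : s * L ≤ 2 * g * (2 * g + 1) * Module.finrank ℚ K * Real.log B +
      (c₁ - Real.log c) := by
    have e1 : κ * L = s * L + 2 * ((n : ℝ) + 2) * L := by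
      rw [hs, hnn]
      ring
    have e2 : ((n : ℝ) + 2) * (n + 1) * (Module.finrank ℚ K * Real.log B) =
        2 * g * (2 * g + 1) * Module.finrank ℚ K * Real.log B := by
      rw [hnn]
      ring
    linarith
  have h5 : L ≤ 2 * g * (2 * g + 1) * Module.finrank ℚ K / s * Real.log B +
      (c₁ - Real.log c) / s := by
    have e3 : 2 * g * (2 * g + 1) * Module.finrank ℚ K / s * Real.log B +
        (c₁ - Real.log c) / s = (2 * g * (2 * g + 1) * Module.finrank ℚ K * Real.log B +
      (c₁ - Real.log c)) / s := by ring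
    rw [e3, le_div_iff₀ hs0]
    linarith
  have h6 := le_max_right 0 ((c₁ - Real.log c) / s)
  have hpos' : (0 : ℝ) < badNorm g (pol d (root P.rep)) := by exact_mod_cast hpos
  have hB0 : (0 : ℝ) < B := by linarith
  rw [← Real.exp_log hpos', Real.rpow_def_of_pos hB0, ← Real.exp_add]
  apply Real.exp_le_exp.2
  rw [← hL]
  linarith

theorem exc (h : CountS) : ExcS := by
  intro K _ _ g n hg hn κ c δ hκ hc hδ
  obtain ⟨c₂, hc₂, hsub⟩ := Exc_sub K g n hg hn κ c hκ hc
  set s : ℝ := κ - 4 * g - 2 with hs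
  have hs0 : 0 < s := by rw [hs]; linarith
  have hfin : (0 : ℝ) < Module.finrank ℚ K := by exact_mod_cast Module.finrank_pos
  have hg0 : (0 : ℝ) < g := by
    have : 0 < g := by omega
    exact_mod_cast this
  set E : ℝ := 2 * g * (2 * g + 1) * Module.finrank ℚ K / s with hE
  have hE0 : 0 < E := by positivity
  set ε : ℝ := δ / (2 * E) with hε
  have hε0 : 0 < ε := by positivity
  obtain ⟨C, hC0, hC⟩ := h K g n hg hn ε hε0
  refine ⟨C * (1 + 2 / δ) * Real.exp (c₂ * (7 / 10 + ε)), fun B hB => ?_⟩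
  have hB0 : (0 : ℝ) < B := by linarith
  set X : ℝ := Real.exp c₂ * B ^ E with hX
  have hX1 : 1 ≤ X := by
    have e1 : (1 : ℝ) ≤ Real.exp c₂ := Real.one_le_exp hc₂
    have e2 : (1 : ℝ) ≤ B ^ E := Real.one_le_rpow hB hE0.le
    have := mul_le_mul e1 e2 zero_le_one (by positivity)
    rwa [one_mul] at this
  obtain ⟨hf, hcard⟩ := hC X (max 1 (Real.log B)) hX1 (le_max_left _ _)
  have hsB := hsub B hB
  refine ⟨hf.subset hsB, ?_⟩
  have h1 : ((Exceptional K g n κ c B).ncard : ℝ) ≤
      ((Configs K g n X (max 1 (Real.log B))).ncard : ℝ) := by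
    exact_mod_cast Set.ncard_le_ncard hsB hf
  refine (h1.trans hcard).trans ?_
  have h2 : max 1 (Real.log B) ≤ (1 + 2 / δ) * B ^ (δ / 2) := by
    have e1 : (1 : ℝ) ≤ B ^ (δ / 2) := Real.one_le_rpow hB (by positivity)
    have e2 : Real.log B ≤ B ^ (δ / 2) / (δ / 2) := Real.log_le_rpow_div hB0.le (by positivity)
    have e3 : B ^ (δ / 2) / (δ / 2) = 2 / δ * B ^ (δ / 2) := by
      field_simp
    have e4 : 0 ≤ 2 / δ * B ^ (δ / 2) := by positivity
    rw [e3] at e2
    apply max_le <;> nlinarith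
  have h3 : X ^ (7 / 10 + ε) = Real.exp (c₂ * (7 / 10 + ε)) * B ^ (E * (7 / 10 + ε)) := by
    rw [hX, Real.mul_rpow (Real.exp_pos _).le (by positivity), ← Real.exp_mul,
      ← Real.rpow_mul hB0.le]
  have hexp : δ / 2 + E * (7 / 10 + ε) =
      Module.finrank ℚ K * (7 * g * (2 * g + 1) / (5 * s)) + δ := by
    have e1 : E * ε = δ / 2 := by
      rw [hε]
      field_simp
    have e2 : E * (7 / 10) = Module.finrank ℚ K * (7 * g * (2 * g + 1) / (5 * s)) := by
      rw [hE]
      field_simp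
      ring
    rw [mul_add, e1, e2]
    ring
  calc C * max 1 (Real.log B) * X ^ (7 / 10 + ε)
      ≤ C * ((1 + 2 / δ) * B ^ (δ / 2)) * X ^ (7 / 10 + ε) := by
        apply mul_le_mul_of_nonneg_right _ (by positivity)
        exact mul_le_mul_of_nonneg_left h2 hC0
    _ = C * (1 + 2 / δ) * Real.exp (c₂ * (7 / 10 + ε)) *
        (B ^ (δ / 2) * B ^ (E * (7 / 10 + ε))) := by
        rw [h3]
        ring
    _ = _ := by
        rw [← Real.rpow_add hB0, hexp]

end Pool.Agent.TH876.HC
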